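import Pool.Agent.W894.EIP.Cn

/-!
Every countable model of `IΔ₀` which is not polynomially bounded is an exponential integer part of
a real-closed exponential field.

1. A countable model `M` is an integer part of a countable real closed field `R`: an ordering of
the real closure of `M` is built from maximal positive sets.

2. The ordered group of the integers and the ordered group `G` of the powers of two of `M` are
isomorphic, by a back-and-forth argument in which the finitely generated partial isomorphisms
preserve the order and the residues modulo all standard numbers. What the extension step needs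
(ratios of infinite elements are realised, gaps between archimedean classes are filled, residues can
be adjusted by elements of smaller classes) is obtained by overspill, since some infinite `X` has
an upper bound `B` of all its standard powers, so that sequences of powers of numbers below `X` are
coded below a polynomial in `B`.

3. The ordered group of the finite elements of `R` and the group of the finite positive units are
isomorphic, by the same back-and-forth argument, over the real exponential of the standard parts.

4. The two isomorphisms agree on the standard integers and give the exponential.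
-/

set_option autoImplicit false
set_option linter.style.haveILetI false

namespace Pool.Agent.Results.MP_22b28a_lc.IDelta0ExpIP

open Pool.Agent.Helper626 Pool.Agent.W894.EIP

/-- the power `a ^ n` in `M` of an element `a` with standard exponent `n` -/
def stdPow {M : Type} [ArithOps M] (a : M) : ℕ → M
  | 0 => 1
  | n + 1 => stdPow a n * a

/-- `M` is polynomially bounded: for some `a` the powers `a ^ n` with `n` standard are cofinal -/
def PolyBounded (M : Type) [ArithOps M] : Prop :=
  ∃ a : M, ∀ x : M, ∃ n : ℕ, x < stdPow a n ∨ x = stdPow a n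

/-- `E` is a base-2 exponential: an isomorphism of `(R, +, <)` onto `(R_{>0}, ·, <)` which maps
`1` to `2` -/
structure IsExponential (R : Type) [Field R] [LinearOrder R] (E : R → R) : Prop where
  strictMono : ∀ x y : R, x < y → E x < E y
  pos : ∀ x : R, 0 < E x
  onto : ∀ y : R, 0 < y → ∃ x : R, E x = y
  map_add : ∀ x y : R, E (x + y) = E x * E y
  map_one : E 1 = 2

/-- the subring `Z` is an integer part of `R` -/
structure IsIntegerPart (R : Type) [Field R] [LinearOrder R] (Z : Subring R) : Prop where
  discrete : ∀ z ∈ Z, 0 < z → 1 ≤ z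
  floor : ∀ r : R, ∃ z ∈ Z, z ≤ r ∧ r < z + 1

/-- `ι` is an isomorphism of the structure `(M, 0, 1, +, ·, <)` onto the set of the nonnegative
elements of the subring `Z` of `R` -/
structure IsNonnegPart (M : Type) [ArithOps M] (R : Type) [Field R] [LinearOrder R]
    (Z : Subring R) (ι : M → R) : Prop where
  map_zero : ι 0 = 0
  map_one : ι 1 = 1
  map_add : ∀ a b : M, ι (a + b) = ι a + ι b
  map_mul : ∀ a b : M, ι (a * b) = ι a * ι b
  map_lt : ∀ a b : M, ι a < ι b ↔ a < b
  range : ∀ z : R, (z ∈ Z ∧ 0 ≤ z) ↔ ∃ a : M, ι a = z

/-- Every countable model of `IΔ₀` which is not polynomially bounded is (the nonnegative part of) an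
exponential integer part of a real-closed exponential field. -/
theorem result : ∀ (M : Type) [ArithOps M] [Countable M],
    PAminus M → ISigma false 0 M → ¬ PolyBounded M →
    ∃ (R : Type) (_ : Field R) (_ : LinearOrder R) (_ : IsStrictOrderedRing R)
      (E : R → R) (Z : Subring R) (ι : M → R),
      IsRealClosed R ∧ IsExponential R E ∧ IsIntegerPart R Z ∧ (∀ z ∈ Z, 0 < z → E z ∈ Z) ∧
        IsNonnegPart M R Z ι := by
  intro M _ _ h hI hpb
  letI := csr h
  letI := lor h
  haveI := sor h
  haveI := coa h
  haveI := idel h hI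
  haveI : NPB M := ⟨fun a => by
    obtain ⟨b, hb⟩ : ∃ b : M, ∀ n : ℕ, ¬ (b < stdPow a n ∨ b = stdPow a n) := by
      by_contra hc
      exact hpb ⟨a, fun x => by
        by_contra hx
        exact hc ⟨x, fun n hn => hx ⟨n, hn⟩⟩⟩
    refine ⟨b, fun n => ?_⟩
    have h1 : ∀ n : ℕ, a ^ n = stdPow a n := by
      intro n
      induction n with
      | zero => exact pow_zero a
      | succ n ih => rw [pow_succ, ih]; rfl
    rw [h1]
    rcases h.lt_trichotomy b (stdPow a n) with h4 | h4 | h4
    · exact absurd (Or.inl h4) (hb n)
    · exact absurd (Or.inr h4) (hb n)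
    · exact h4⟩
  obtain ⟨R, _, _, _, ι, E, h1, h2, h3, h4, h5, h6, h7, h8, h9⟩ := exists_RE M
  have h0 : ∀ a : M, 0 ≤ ι a := fun a => ι_nonneg h2 a
  have hnn : ∀ z ∈ Zs ι, 0 ≤ z → ∃ a : M, ι a = z := by
    intro z hz hz0
    obtain ⟨a, rfl | rfl⟩ := Zs_cases hz
    · exact ⟨a, rfl⟩
    · refine ⟨0, ?_⟩
      rw [map_zero]
      exact le_antisymm hz0 (neg_nonpos.2 (h0 a))
  have hmem : ∀ a : M, ι a ∈ Zs ι := fun a => ⟨a, 0, by simp⟩
  refine ⟨R, _, _, inferInstance, E, Zs ι, ι, h1, ⟨fun x y hxy => h4 hxy, h5, h7, h6, h8⟩,
    ⟨?_, ?_⟩, ?_, ⟨map_zero ι, map_one ι, map_add ι, map_mul ι, fun a b => h2.lt_iff_lt, ?_⟩⟩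
  · intro z hz hz0
    obtain ⟨a, rfl⟩ := hnn z hz hz0.le
    have h10 : 0 < a := by
      rw [← map_zero ι] at hz0
      exact h2.lt_iff_lt.1 hz0
    rw [← map_one ι]
    exact h2.monotone (Disc.out a h10)
  · intro r
    rcases le_or_gt 0 r with hr | hr
    · obtain ⟨m, hm1, hm2⟩ := h3 r hr
      exact ⟨ι m, hmem m, hm1, hm2⟩
    · obtain ⟨m, hm1, hm2⟩ := h3 (-r) (neg_nonneg.2 hr.le)
      rcases hm1.eq_or_lt with h10 | h10
      · exact ⟨-ι m, (Zs ι).neg_mem (hmem m), by linarith, by linarith⟩
      · exact ⟨-ι m - 1, (Zs ι).sub_mem ((Zs ι).neg_mem (hmem m)) (Zs ι).one_mem, by linarith,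
          by linarith⟩
  · intro z hz hz0
    obtain ⟨a, rfl⟩ := hnn z hz hz0.le
    obtain ⟨b, hb⟩ := h9 a
    rw [hb]
    exact hmem b
  · intro z
    constructor
    · rintro ⟨hz, hz0⟩
      exact hnn z hz hz0
    · rintro ⟨a, rfl⟩
      exact ⟨hmem a, h0 a⟩

end Pool.Agent.Results.MP_22b28a_lc.IDelta0ExpIP
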